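import Pool.Agent.H613T.LinCov7

/-!
# The linear covering density: `f(r) ≤ (1 + o(1)) r log r`

`f r` is the function of the frozen statement (`Pool.Prelude.Def_F_7905cbea`): the liminf over `n` of
the least value of `|V| |B(n,r)| / 2^n` over the linear subspaces `V` of `F_2^n` with
`V + B(n,r) = F_2^n`.

Proof. For a uniformly random choice of `m` columns in `F_2^M` the sums over two different `r`-sets of
columns are independent, so by Cauchy-Schwarz some choice misses at most the proportion
`1/(1 + C(m,r)/2^M)` of `F_2^M`. Passing to the quotient by a well chosen line squares the proportion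
of missed elements; after `j` steps, `2^j log(1 + C(m,r)/2^M) > M log 2`, nothing is missed. With `m`
a large multiple of `r²` and `2^j` about `r²` this gives `m` columns in a space of `2^c` elements,
`C(m,r)/2^c ≤ (1 + ε) r log r`, such that every element is the sum of exactly `r` of them. Over a
field `F_q`, `q = 2^J ≥ m`, replace the column `a_i` by the `q` columns
`(a_i, x, β_i x, ..., β_i^(r-1) x)`, the `β_i` being distinct; by the Vandermonde determinant again
every element is the sum of exactly `r` columns, and `(number of columns)^r / (number of elements)`
is unchanged as `J → ∞`.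
-/

set_option autoImplicit false

namespace Pool.Agent.Results.MP_073f2d_co.AtMostRLogR

open N8b55e67f Filter

/-- For every `η > 0` and all large `r`, `f(r) ≤ (1 + η) r log r`. -/
theorem result (η : ℝ) (hη : 0 < η) : ∀ᶠ r : ℕ in atTop,
    f r ≤ ENNReal.ofReal ((1 + η) * (r * Real.log r)) := by
  filter_upwards [Pool.Agent.H613T.LC.main η hη] with r h
  exact h.1

end Pool.Agent.Results.MP_073f2d_co.AtMostRLogR
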